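import Mathlib
import Pool.Agent.Helper18K9.CLT.Clt

set_option autoImplicit false

/-!
# Central limit theorem for the exponents under random analytic perturbations of any order

For a sequence `g` with `g p / p → a > 0` (for the Mersenne numbers `g p = p log 2`), an order `m` and
real coefficients `c 0, c 1, …` let `W g m c p` be the `p`-rough part (the product, with multiplicity,
of the prime factors larger than `p`) of the largest integer below
`exp (g p + c 0 / p ^ m + c 1 / p ^ (m + 1) + …)`.  For `g p = p log 2` this is the largest integer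
below `2 ^ p * exp (c 0 / p ^ m + c 1 / p ^ (m + 1) + …) = 2 ^ p (1 + O (p ^ (-m)))`, and for `c = 0` the
number `W` is the Mersenne number `2 ^ p - 1`.  The exponents are the primes `p` with `W g m c p` prime,
and `M g m c n` is the number of exponents up to `n`.

Let the `c j` be independent and uniform on `[-r j, r j]`, with `r j > 0` arbitrary but summable, and `m`
any order.  Write `b = e ^ γ / a`, which is `e ^ γ / log 2` for the Mersenne numbers.  We prove that the
mean of `M n` is asymptotic to `b log n` and that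

  `(M n - E M n) / sqrt (b log n)`

converges in law to the standard normal law; if moreover `g p - a p` is bounded (for the Mersenne
numbers it is `0`) the same holds for `(M n - b log n) / sqrt (b log n)`.

Proof.  The probability that the `W g m c q`, `q ∈ S`, are all prime is the product of local means
`tau g q` times `1 + O (1 / min S)`: the interpolation argument at the points `1 / q`, and a comparison
of means over two windows at bounded distance with relative error `O (1 / q)` (prime number theorem
with error term, and regularity of the rough part weights).  So the factorial moments of the number of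
exponents in `(exp ((log n) ^ (1/4)), n]` are closer than any power of `log n` to those of the Poisson
law of mean `mu g n ~ b log n`; hence all central moments agree with those of this Poisson law up to
`o (1)`, and Taylor expansion of the characteristic functions and Lévy's theorem give the limit law.
The exponents up to `exp ((log n) ^ (1/4))` are negligible in mean.
-/

namespace Pool.Agent.Results.MP_9b2bac_nt.CentralLimit

open Filter Topology MeasureTheory ProbabilityTheory

/-- The product, with multiplicity, of the prime factors of `n` that are larger than `p`. -/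
def roughPart (p n : ℕ) : ℕ := (n.primeFactorsList.filter (fun r => p < r)).prod

/-- The `p`-rough part of the largest integer below `exp (g p + ∑ j, c j / p ^ (m + j))`. -/
noncomputable def W (g : ℕ → ℝ) (m : ℕ) (c : ℕ → ℝ) (p : ℕ) : ℕ :=
  roughPart p (⌈Real.exp (g p + ∑' j, c j / (p : ℝ) ^ (m + j))⌉₊ - 1)

/-- The number of exponents up to `n`: the primes `p ≤ n` for which `W g m c p` is prime. -/
noncomputable def M (g : ℕ → ℝ) (m : ℕ) (c : ℕ → ℝ) (n : ℕ) : ℕ :=
  ((Finset.Ioc 0 n).filter (fun p => p.Prime ∧ (W g m c p).Prime)).card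

lemma W_mersenne (m : ℕ) {p : ℕ} (hp : p.Prime) :
    W (fun q => q * Real.log 2) m (fun _ => 0) p = 2 ^ p - 1 := by
  have e1 : Real.exp (p * Real.log 2 + ∑' j, (0 : ℝ) / (p : ℝ) ^ (m + j)) = ((2 ^ p : ℕ) : ℝ) := by
    simp only [zero_div, tsum_zero]
    rw [add_zero, mul_comm, Real.exp_mul, Real.exp_log two_pos, Real.rpow_natCast]
    push_cast
    rfl
  unfold W
  rw [e1, Nat.ceil_natCast]
  unfold roughPart
  rw [List.filter_eq_self.2, Nat.prod_primeFactorsList]
  · have h := hp.two_le
    have : 2 ^ 2 ≤ 2 ^ p := Nat.pow_le_pow_right (by norm_num) h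
    omega
  · intro r hr
    obtain ⟨hr1, hr2⟩ := Nat.mem_primeFactorsList'.1 hr
    -- the order of `2` modulo `r` is `p`
    have hr2' := hr2.1
    have : Fact r.Prime := ⟨hr1⟩
    have : Fact p.Prime := ⟨hp⟩
    have h1 : (2 : ZMod r) ^ p = 1 := by
      have h3 : ((2 ^ p - 1 : ℕ) : ZMod r) = 0 := (ZMod.natCast_eq_zero_iff _ _).2 hr2'
      rw [Nat.cast_sub Nat.one_le_two_pow] at h3
      push_cast at h3
      exact sub_eq_zero.1 h3
    have h2 : (2 : ZMod r) ≠ 1 := by
      intro h
      have : (1 : ZMod r) = 0 := by linear_combination h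
      exact one_ne_zero this
    have h4 : orderOf (2 : ZMod r) = p := orderOf_eq_prime h1 h2
    have h5 : (2 : ZMod r) ≠ 0 := by
      intro h
      rw [h, zero_pow hp.ne_zero] at h1
      exact zero_ne_one h1
    have h6 : orderOf (2 : ZMod r) ∣ r - 1 := orderOf_dvd_of_pow_eq_one (ZMod.pow_card_sub_one_eq_one h5)
    rw [h4] at h6
    have h7 : p ≤ r - 1 := Nat.le_of_dvd (by have := hr1.two_le; omega) h6
    have := hr1.two_le
    simp only [decide_eq_true_eq]
    omega

lemma W_eq {Ω : Type} (g : ℕ → ℝ) (m : ℕ) (c : ℕ → Ω → ℝ) (ω : Ω) (p : ℕ) :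
    W g m (fun j => c j ω) p =
      Pool.Agent.H305R2.roughPart p (Pool.Agent.H305R2.NN (Pool.Agent.Helper18K9.PL.Fr g m c ω p)) := by
  unfold W Pool.Agent.H305R2.NN Pool.Agent.Helper18K9.PL.Fr
  simp only [div_eq_mul_inv]
  rfl

lemma M_eq {Ω : Type} (g : ℕ → ℝ) (m : ℕ) (c : ℕ → Ω → ℝ) (ω : Ω) (n : ℕ) :
    M g m (fun j => c j ω) n =
      Pool.Agent.Helper18K9.PL.Cn g m c (Pool.Agent.Helper18K9.CLT.TT 0 n) ω := by
  unfold M Pool.Agent.Helper18K9.PL.Cn Pool.Agent.Helper18K9.CLT.TT
  simp only [Finset.filter_filter, W_eq]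

/-- At `g p = p log 2`, `c = 0` the numbers are the Mersenne numbers; for independent uniform
coefficients, asymptotics of the mean and central limit theorem for the number of exponents. -/
theorem result :
    (∀ m p : ℕ, p.Prime → W (fun q => q * Real.log 2) m (fun _ => 0) p = 2 ^ p - 1) ∧
    ∀ (Ω : Type) [MeasurableSpace Ω] (P : Measure Ω) [IsProbabilityMeasure P]
      (r : ℕ → ℝ) (c : ℕ → Ω → ℝ), (∀ j, 0 < r j) → Summable r → (∀ j, Measurable (c j)) →
      iIndepFun c P → (∀ j, pdf.IsUniform (c j) (Set.Icc (-(r j)) (r j)) P volume) →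
      ∀ (g : ℕ → ℝ) (a : ℝ), 0 < a → Tendsto (fun p : ℕ => g p / p) atTop (𝓝 a) → ∀ m : ℕ,
      Tendsto (fun n : ℕ => (∫ ω, (M g m (fun j => c j ω) n : ℝ) ∂P) /
        (Real.exp Real.eulerMascheroniConstant / a * Real.log n)) atTop (𝓝 1) ∧
      (∀ x : ℝ, Tendsto (fun n : ℕ => P.real {ω | (M g m (fun j => c j ω) n : ℝ) -
            ∫ ω', (M g m (fun j => c j ω') n : ℝ) ∂P ≤
          x * Real.sqrt (Real.exp Real.eulerMascheroniConstant / a * Real.log n)}) atTop
        (𝓝 ((gaussianReal 0 1).real (Set.Iic x)))) ∧
      ((∃ D : ℝ, ∀ p : ℕ, |g p - a * p| ≤ D) →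
        ∀ x : ℝ, Tendsto (fun n : ℕ => P.real {ω | (M g m (fun j => c j ω) n : ℝ) -
            Real.exp Real.eulerMascheroniConstant / a * Real.log n ≤
          x * Real.sqrt (Real.exp Real.eulerMascheroniConstant / a * Real.log n)}) atTop
        (𝓝 ((gaussianReal 0 1).real (Set.Iic x)))) := by
  refine ⟨fun m p hp => W_mersenne m hp, ?_⟩
  intro Ω _ P _ r c hr0 hr hc hind hun g a ha hg m
  have h : Pool.Agent.Helper18K9.PL.Coeffs P r c := ⟨hr0, hr, hc, hind, hun⟩
  simp only [M_eq]
  have hcst := Pool.Agent.Helper18K9.CLT.cst_pos ha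
  have hmc := Pool.Agent.Helper18K9.CLT.mean_close h ha hg m
  refine ⟨?_, fun x => ?_, fun ⟨D, hD⟩ x => ?_⟩
  · have h1 := Pool.Agent.Helper18K9.CLT.mu_lim ha hg
    have h2 : Tendsto (fun n : ℕ => 1 / (Pool.Agent.Helper18K9.CLT.cst a * Real.sqrt (Real.log n))) atTop (𝓝 0) := by
      simp only [one_div]
      exact tendsto_inv_atTop_zero.comp
        ((Real.tendsto_sqrt_atTop.comp Pool.Agent.Helper18K9.CLT.log_lim).const_mul_atTop hcst)
    have h3 := h1.add (hmc.mul h2)
    rw [zero_mul, add_zero] at h3
    refine h3.congr' ?_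
    filter_upwards [Pool.Agent.Helper18K9.CLT.log_lim.eventually_gt_atTop 0] with n hn
    have hs : 0 < Real.sqrt (Real.log n) := Real.sqrt_pos.2 hn
    have hss : Real.sqrt (Real.log n) * Real.sqrt (Real.log n) = Real.log n := Real.mul_self_sqrt hn.le
    have e : Real.exp Real.eulerMascheroniConstant / a = Pool.Agent.Helper18K9.CLT.cst a := rfl
    rw [e, div_mul_div_comm, mul_one]
    have e2 : Real.sqrt (Real.log n) * (Pool.Agent.Helper18K9.CLT.cst a * Real.sqrt (Real.log n)) =
        Pool.Agent.Helper18K9.CLT.cst a * Real.log n := by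
      calc Real.sqrt (Real.log n) * (Pool.Agent.Helper18K9.CLT.cst a * Real.sqrt (Real.log n)) =
            Pool.Agent.Helper18K9.CLT.cst a * (Real.sqrt (Real.log n) * Real.sqrt (Real.log n)) := by ring
        _ = _ := by rw [hss]
    rw [e2, ← add_div]
    congr 1
    ring
  · exact Pool.Agent.Helper18K9.CLT.clt h ha hg m hmc x
  · exact Pool.Agent.Helper18K9.CLT.clt h ha hg m (Pool.Agent.Helper18K9.CLT.mu_lim2 ha hD) x

end Pool.Agent.Results.MP_9b2bac_nt.CentralLimit
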