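import Mathlib
import Pool.Agent.Helper92K9.MP.Series

set_option autoImplicit false

/-!
# Poisson correlations and gaps of the exponents for almost every amplitude polynomial

Fix a base `α > 1`.  For real parameters `c = (c_0, ..., c_{k-1})` and functions `G`, `ω` of polynomial
size let `N_c(p)` be the largest integer below
`(G p + ω p (c_0 + c_1 p + ... + c_{k-1} p ^ (k-1))) α ^ p`.  A prime `p` is an exponent if the
`p`-rough part of `N_c(p)` is prime.  For `α = 2`, `G = 1`, `c = 0` the number `N_c(p)` is the Mersenne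
number `2 ^ p - 1`, which is its own `p`-rough part, and the exponents are the Mersenne exponents; with
`ω p = p ^ (-M)`, `M` arbitrarily large, the family consists of perturbations of the Mersenne
numbers of relative size `p ^ (k - 1 - M)`.  With `G = 0`, `ω = 1` it consists of the solutions of the
linear recurrence with the characteristic polynomial `(X - α) ^ k`.

Put `κ = e ^ γ / log α`.  We prove that for almost every `c` (with positive amplitude) the exponents have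
the correlations of a Poisson process of intensity `κ` on the logarithmic scale, for all orders
`r + 1 ≤ k / 2` and all windows: the number of the tuples `(p, q_1, ..., q_r)` of different exponents with
`p ≤ n` and `s_i p < q_i ≤ t_i p` is asymptotic to `κ ^ (r + 1) ∏ log (t_i / s_i) log n`.  The case
`r = 0` is the law `M(n) ~ κ log n`, the case `r = 1` the pair correlation.  Consequently for almost every
`c` the proportion of the exponents `p ≤ n` that are followed by exactly `j` exponents in `(p, t p]` is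
eventually as close to the Poisson probability `e ^ (-λ) λ ^ j / j!`, `λ = κ log t`, as the Bonferroni
inequalities with `k / 2` moments allow; for `j = 0` this is the distribution of the ratio of
consecutive exponents.

Proof.  For `R ≤ k` different numbers `p_1, ..., p_R` of comparable logarithms a shift of `c`, found by
Lagrange interpolation, moves the `R` amplitudes independently of each other.  So the probability that
all of them are exponents is the product of window means up to a relative error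
`O(min p_i ^ (-1/2))`, and the window means follow from the prime number theorem and a sieve.  Hence the
correlation sums over blocks of the logarithmic scale are almost uncorrelated, their second moments are
bounded by the factorial moments of order `2 (r + 1) ≤ k`, and a law of large numbers applies.

Infinitely many parameters give the exact Poisson law: if `X_0, X_1, ...` are independent and uniform in
`[0, 1]` and the amplitude is `G p + ω p (X_0 + X_1 / p + X_2 / p ^ 2 + ...)`, `G ≥ 0`, then almost surely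
ALL the correlations of the exponents are those of the Poisson process, and the proportion of the exponents
followed by exactly `j` exponents in `(p, t p]` converges to `e ^ (-λ) λ ^ j / j!`.  (For fixed
`X_k, X_(k+1), ...` the first `k` coefficients form a `k`-parameter family; Fubini.)
-/

namespace Pool.Agent.Results.MP_9b2bac_nt.PoissonCorrelations

open Filter Topology MeasureTheory

/-- The product, with multiplicity, of the prime factors of `m` that are larger than `p`. -/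
def roughPart (p m : ℕ) : ℕ := (m.primeFactorsList.filter (fun r => p < r)).prod

/-- The amplitude `G p + ω p (c_0 + c_1 p + ... + c_{k-1} p ^ (k-1))`. -/
noncomputable def amp {k : ℕ} (G ω : ℕ → ℝ) (c : Fin k → ℝ) (p : ℕ) : ℝ :=
  G p + ω p * ∑ j : Fin k, c j * (p : ℝ) ^ (j : ℕ)

/-- The exponents: the primes `p` such that the `p`-rough part of the largest integer below
`amp * α ^ p` is prime. -/
def IsExp {k : ℕ} (α : ℝ) (G ω : ℕ → ℝ) (c : Fin k → ℝ) (p : ℕ) : Prop :=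
  p.Prime ∧ (roughPart p (⌈amp G ω c p * α ^ p⌉₊ - 1)).Prime

/-- `G` and `ω` have polynomial size and `ω` is positive and not too small. -/
def Poly (G ω : ℕ → ℝ) : Prop :=
  ∃ D : ℕ, ∀ᶠ p : ℕ in atTop, |G p| ≤ (p : ℝ) ^ D ∧ ((p : ℝ) ^ D)⁻¹ ≤ ω p ∧ ω p ≤ (p : ℝ) ^ D

/-- The amplitude is at least a constant times the size of the highest term. -/
def Adm {k : ℕ} (G ω : ℕ → ℝ) (c : Fin k → ℝ) : Prop :=
  ∃ δ : ℝ, 0 < δ ∧ ∀ᶠ p : ℕ in atTop, δ * (ω p * (p : ℝ) ^ (k - 1)) ≤ amp G ω c p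

/-- The amplitude `G p + ω p (x_0 + x_1 / p + x_2 / p ^ 2 + ...)`. -/
noncomputable def ampS (G ω : ℕ → ℝ) (x : ℕ → ℝ) (p : ℕ) : ℝ := G p + ω p * ∑' j : ℕ, x j / (p : ℝ) ^ j

/-- The exponents for the amplitude `ampS`. -/
def IsExpS (α : ℝ) (G ω : ℕ → ℝ) (x : ℕ → ℝ) (p : ℕ) : Prop :=
  p.Prime ∧ (roughPart p (⌈ampS G ω x p * α ^ p⌉₊ - 1)).Prime

/-- `G` and `ω` have polynomial size, `G` is nonnegative, `ω` is positive and not too small. -/
def PolyS (G ω : ℕ → ℝ) : Prop :=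
  ∃ D : ℕ, ∀ᶠ p : ℕ in atTop, 0 ≤ G p ∧ G p ≤ (p : ℝ) ^ D ∧ ((p : ℝ) ^ D)⁻¹ ≤ ω p ∧ ω p ≤ (p : ℝ) ^ D

/-- The intensity `e ^ γ / log α`. -/
noncomputable def kappa (α : ℝ) : ℝ := Real.exp Real.eulerMascheroniConstant / Real.log α

open Pool.Agent.Helper92K9.MP (YY Tp KK)
open Pool.Agent.Y122.PC (Pr mem_Pr)

lemma IsExp_iff {k : ℕ} (α : ℝ) (G ω : ℕ → ℝ) (c : Fin k → ℝ) (p : ℕ) :
    IsExp α G ω c p ↔ p.Prime ∧ Pool.Agent.Helper92K9.MP.ex α G ω c p := Iff.rfl

lemma mersenne {k : ℕ} (ω : ℕ → ℝ) {p : ℕ} (hp : p.Prime) :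
    roughPart p (⌈amp (fun _ => 1) ω (0 : Fin k → ℝ) p * 2 ^ p⌉₊ - 1) = 2 ^ p - 1 := by
  have e1 : amp (fun _ => 1) ω (0 : Fin k → ℝ) p * 2 ^ p = ((2 ^ p : ℕ) : ℝ) := by
    unfold amp
    simp
  rw [e1, Nat.ceil_natCast]
  unfold roughPart
  rw [List.filter_eq_self.2, Nat.prod_primeFactorsList]
  · have h := hp.two_le
    have : 2 ^ 2 ≤ 2 ^ p := Nat.pow_le_pow_right (by norm_num) h
    omega
  · intro r hr
    obtain ⟨hr1, hr2⟩ := Nat.mem_primeFactorsList'.1 hr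
    -- the order of `2` modulo `r` is `p`
    have hr2' := hr2.1
    have : Fact r.Prime := ⟨hr1⟩
    have : Fact p.Prime := ⟨hp⟩
    have h1 : (2 : ZMod r) ^ p = 1 := by
      have h3 : ((2 ^ p - 1 : ℕ) : ZMod r) = 0 := (ZMod.natCast_eq_zero_iff _ _).2 hr2'
      rw [Nat.cast_sub Nat.one_le_two_pow] at h3
      push_cast at h3
      exact sub_eq_zero.1 h3
    have h2 : (2 : ZMod r) ≠ 1 := by
      intro h
      have : (1 : ZMod r) = 0 := by linear_combination h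
      exact one_ne_zero this
    have h4 : orderOf (2 : ZMod r) = p := orderOf_eq_prime h1 h2
    have h5 : (2 : ZMod r) ≠ 0 := by
      intro h
      rw [h, zero_pow hp.ne_zero] at h1
      exact zero_ne_one h1
    have h6 : orderOf (2 : ZMod r) ∣ r - 1 := orderOf_dvd_of_pow_eq_one (ZMod.pow_card_sub_one_eq_one h5)
    rw [h4] at h6
    have h7 : p ≤ r - 1 := Nat.le_of_dvd (by have := hr1.two_le; omega) h6
    have := hr1.two_le
    simp only [decide_eq_true_eq]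
    omega

lemma adm_near (k M : ℕ) (c : Fin k → ℝ) (hkM : k ≤ M) :
    Adm (fun _ => 1) (fun p => ((p : ℝ) ^ M)⁻¹) c := by
  set B := ∑ j, |c j| with hB
  have hB0 : 0 ≤ B := Finset.sum_nonneg fun j _ => abs_nonneg _
  refine ⟨1 / 2, by norm_num, ?_⟩
  have hbig : ∀ᶠ p : ℕ in atTop, 2 * B ≤ (p : ℝ) := tendsto_natCast_atTop_atTop.eventually_ge_atTop _
  filter_upwards [hbig, eventually_ge_atTop 1] with p h1 h2
  have hp1 : (1 : ℝ) ≤ p := by exact_mod_cast h2
  have hp0 : (0 : ℝ) < p := by linarith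
  have hpM : (0 : ℝ) < (p : ℝ) ^ M := by positivity
  have e1 : (p : ℝ) ^ (k - 1) ≤ (p : ℝ) ^ M := pow_le_pow_right₀ hp1 (by omega)
  have e2 : ((p : ℝ) ^ M)⁻¹ * (p : ℝ) ^ (k - 1) ≤ 1 := by
    rw [inv_mul_le_iff₀ hpM, mul_one]
    exact e1
  have e3 : |∑ j : Fin k, c j * (p : ℝ) ^ (j : ℕ)| * p ≤ B * (p : ℝ) ^ M := by
    calc |∑ j : Fin k, c j * (p : ℝ) ^ (j : ℕ)| * p ≤ (∑ j : Fin k, |c j * (p : ℝ) ^ (j : ℕ)|) * p := by
          gcongr
          exact Finset.abs_sum_le_sum_abs _ _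
      _ = ∑ j : Fin k, |c j| * (p : ℝ) ^ ((j : ℕ) + 1) := by
          rw [Finset.sum_mul]
          refine Finset.sum_congr rfl fun j _ => ?_
          rw [abs_mul, abs_of_nonneg (by positivity : (0 : ℝ) ≤ (p : ℝ) ^ (j : ℕ)), pow_succ]
          ring
      _ ≤ ∑ j : Fin k, |c j| * (p : ℝ) ^ M := by
          refine Finset.sum_le_sum fun j _ => ?_
          refine mul_le_mul_of_nonneg_left (pow_le_pow_right₀ hp1 ?_) (abs_nonneg _)
          have := j.2
          omega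
      _ = _ := by rw [← Finset.sum_mul]
  have e4 : |((p : ℝ) ^ M)⁻¹ * ∑ j : Fin k, c j * (p : ℝ) ^ (j : ℕ)| ≤ 1 / 2 := by
    rw [abs_mul, abs_of_pos (inv_pos.2 hpM), inv_mul_le_iff₀ hpM]
    have e5 : |∑ j : Fin k, c j * (p : ℝ) ^ (j : ℕ)| * p ≤ ((p : ℝ) ^ M * (1 / 2)) * p := by
      calc _ ≤ B * (p : ℝ) ^ M := e3
        _ ≤ (p / 2) * (p : ℝ) ^ M := by gcongr; linarith
        _ = _ := by ring
    exact le_of_mul_le_mul_right e5 hp0
  unfold amp
  have e6 := neg_le_of_abs_le e4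
  linarith

lemma adm_poly (k : ℕ) (c : Fin (k + 1) → ℝ) (hc : 0 < c (Fin.last k)) :
    Adm (fun _ => 0) (fun _ => 1) c := by
  set B := ∑ j : Fin k, |c j.castSucc| with hB
  have hB0 : 0 ≤ B := Finset.sum_nonneg fun j _ => abs_nonneg _
  refine ⟨c (Fin.last k) / 2, by positivity, ?_⟩
  have hbig : ∀ᶠ p : ℕ in atTop, 2 * B / c (Fin.last k) ≤ (p : ℝ) :=
    tendsto_natCast_atTop_atTop.eventually_ge_atTop _
  filter_upwards [hbig, eventually_ge_atTop 1] with p h1 h2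
  have hp1 : (1 : ℝ) ≤ p := by exact_mod_cast h2
  have hp0 : (0 : ℝ) < p := by linarith
  rw [div_le_iff₀ hc] at h1
  unfold amp
  rw [zero_add, one_mul, one_mul, Fin.sum_univ_castSucc, Nat.add_sub_cancel, Fin.val_last]
  have e3 : |∑ j : Fin k, c j.castSucc * (p : ℝ) ^ ((j.castSucc : Fin (k + 1)) : ℕ)| * p ≤ B * (p : ℝ) ^ k := by
    calc |∑ j : Fin k, c j.castSucc * (p : ℝ) ^ ((j.castSucc : Fin (k + 1)) : ℕ)| * p ≤
        (∑ j : Fin k, |c j.castSucc * (p : ℝ) ^ ((j.castSucc : Fin (k + 1)) : ℕ)|) * p := by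
          gcongr
          exact Finset.abs_sum_le_sum_abs _ _
      _ = ∑ j : Fin k, |c j.castSucc| * (p : ℝ) ^ ((j : ℕ) + 1) := by
          rw [Finset.sum_mul]
          refine Finset.sum_congr rfl fun j _ => ?_
          rw [abs_mul, abs_of_nonneg (by positivity : (0 : ℝ) ≤ (p : ℝ) ^ ((j.castSucc : Fin (k + 1)) : ℕ)),
            pow_succ, Fin.val_castSucc]
          ring
      _ ≤ ∑ j : Fin k, |c j.castSucc| * (p : ℝ) ^ k := by
          refine Finset.sum_le_sum fun j _ => ?_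
          refine mul_le_mul_of_nonneg_left (pow_le_pow_right₀ hp1 ?_) (abs_nonneg _)
          have := j.2
          omega
      _ = _ := by rw [← Finset.sum_mul]
  have e5 : |∑ j : Fin k, c j.castSucc * (p : ℝ) ^ ((j.castSucc : Fin (k + 1)) : ℕ)| * p ≤
      (c (Fin.last k) / 2 * (p : ℝ) ^ k) * p := by
    calc _ ≤ B * (p : ℝ) ^ k := e3
      _ ≤ (p * c (Fin.last k) / 2) * (p : ℝ) ^ k := by gcongr; linarith
      _ = _ := by ring
  have e6 := le_of_mul_le_mul_right e5 hp0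
  have e7 := neg_le_of_abs_le e6
  linarith

open Classical in
lemma corr_set {k : ℕ} (α : ℝ) (G ω : ℕ → ℝ) (c : Fin k → ℝ) {r : ℕ} {s t : Fin r → ℝ}
    (hs : ∀ i, 0 < s i) (hst : ∀ i, s i < t i) (n : ℕ) :
    (Set.ncard {q : Fin (r + 1) → ℕ | Function.Injective q ∧ (∀ i, IsExp α G ω c (q i)) ∧ q 0 ≤ n ∧
      ∀ i : Fin r, s i * q 0 < q i.succ ∧ (q i.succ : ℝ) ≤ t i * q 0} : ℝ) =
    ∑ p ∈ Pr 1 n, ∑ q ∈ Tp s t p, ∏ l, Pool.Agent.Helper92K9.MP.gi α G ω c (q l) := by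
  have hdis : (Pr 1 (n : ℝ) : Set ℕ).PairwiseDisjoint fun p => Tp s t p := by
    intro p _ p' _ hpp
    rw [Function.onFun, Finset.disjoint_left]
    intro q hq hq'
    exact hpp (((Pool.Agent.Helper92K9.MP.mem_Tp hs hst).1 hq).2.1.symm.trans
      ((Pool.Agent.Helper92K9.MP.mem_Tp hs hst).1 hq').2.1)
  have h1 := Pool.Agent.Helper92K9.MP.YY_card α G ω ((Pr 1 (n : ℝ)).biUnion fun p => Tp s t p) c
  have h2 : YY α G ω ((Pr 1 (n : ℝ)).biUnion fun p => Tp s t p) c =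
      ∑ p ∈ Pr 1 n, ∑ q ∈ Tp s t p, ∏ l, Pool.Agent.Helper92K9.MP.gi α G ω c (q l) := by
    unfold YY
    rw [Finset.sum_biUnion hdis]
  rw [← h2, h1, ← Set.ncard_coe_finset]
  congr 2
  ext q
  simp only [Set.mem_ofPred_eq, Finset.coe_filter, Finset.mem_biUnion, IsExp_iff,
    Pool.Agent.Helper92K9.MP.mem_Tp hs hst, mem_Pr zero_le_one (Nat.cast_nonneg n)]
  constructor
  · rintro ⟨g1, g2, g3, g4⟩
    refine ⟨⟨q 0, ⟨(g2 0).1, ?_, by exact_mod_cast g3⟩, g1, rfl, fun i => ⟨(g2 i.succ).1, g4 i⟩⟩,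
      fun l => (g2 l).2⟩
    exact_mod_cast (g2 0).1.one_lt
  · rintro ⟨⟨p, ⟨g1, g2, g3⟩, g4, g5, g6⟩, g7⟩
    subst g5
    refine ⟨g4, fun l => ⟨?_, g7 l⟩, by exact_mod_cast g3, fun i => (g6 i).2⟩
    refine Fin.cases ?_ (fun i => ?_) l
    · exact g1
    · exact (g6 i).1

open Classical in
lemma gap_set {k : ℕ} (α : ℝ) (G ω : ℕ → ℝ) (c : Fin k → ℝ) {t : ℝ} (ht : 1 < t) (p : ℕ) :
    Set.ncard {q : ℕ | IsExp α G ω c q ∧ p < q ∧ (q : ℝ) ≤ t * p} = KK α G ω c 1 t p := by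
  unfold KK
  rw [← Set.ncard_coe_finset]
  congr 1
  ext q
  simp only [Set.mem_ofPred_eq, Finset.coe_filter, IsExp_iff]
  rw [mem_Pr (by positivity) (by positivity), one_mul]
  constructor
  · rintro ⟨⟨g1, g2⟩, g3, g4⟩
    exact ⟨⟨g1, by exact_mod_cast g3, g4⟩, g2⟩
  · rintro ⟨⟨g1, g2, g3⟩, g4⟩
    exact ⟨⟨g1, g4⟩, by exact_mod_cast g2, g3⟩

open Classical in
lemma num_set {k : ℕ} (α : ℝ) (G ω : ℕ → ℝ) (c : Fin k → ℝ) (Q : ℕ → Prop) (n : ℕ) :
    (Set.ncard {p : ℕ | IsExp α G ω c p ∧ p ≤ n ∧ Q p} : ℝ) =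
      ∑ p ∈ Pr 1 n, Pool.Agent.Helper92K9.MP.gi α G ω c p * (if Q p then (1 : ℝ) else 0) := by
  have h1 : ∀ p, Pool.Agent.Helper92K9.MP.gi α G ω c p * (if Q p then (1 : ℝ) else 0) =
      if Pool.Agent.Helper92K9.MP.ex α G ω c p ∧ Q p then (1 : ℝ) else 0 := by
    intro p
    rw [Pool.Agent.Helper92K9.MP.gi_eq]
    by_cases h : Pool.Agent.Helper92K9.MP.ex α G ω c p
    · by_cases h' : Q p <;> simp [h, h']
    · simp [h]
  simp only [h1]
  rw [← Finset.sum_filter, Finset.sum_const, nsmul_eq_mul, mul_one, ← Set.ncard_coe_finset]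
  congr 2
  ext q
  simp only [Set.mem_ofPred_eq, Finset.coe_filter, IsExp_iff, mem_Pr zero_le_one (Nat.cast_nonneg n)]
  constructor
  · rintro ⟨⟨g1, g2⟩, g3, g4⟩
    exact ⟨⟨g1, by exact_mod_cast g1.one_lt, by exact_mod_cast g3⟩, g2, g4⟩
  · rintro ⟨⟨g1, g2, g3⟩, g4, g5⟩
    exact ⟨⟨g1, g4⟩, by exact_mod_cast g3, g5⟩

lemma IsExpS_iff (α : ℝ) (G ω : ℕ → ℝ) (x : ℕ → ℝ) (p : ℕ) :
    IsExpS α G ω x p ↔ IsExp α (ampS G ω x) 0 (Fin.elim0 : Fin 0 → ℝ) p := by
  unfold IsExpS IsExp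
  have : amp (ampS G ω x) 0 (Fin.elim0 : Fin 0 → ℝ) p = ampS G ω x p := by
    unfold amp
    simp
  rw [this]

lemma ampS_zero (ω : ℕ → ℝ) (p : ℕ) : ampS (fun _ => 1) ω (fun _ => 0) p = 1 := by
  unfold ampS
  simp

/-- the exact law -/
theorem series_law {α : ℝ} (hα : 1 < α) {a : ℕ → ℝ}
    (hw : ∀ r : ℕ, ∀ s t : Fin r → ℝ, (∀ i, 0 < s i) → (∀ i, s i < t i) →
      Tendsto (Pool.Agent.Helper92K9.MP.HH α a 0 (Fin.elim0 : Fin 0 → ℝ) s t) atTop
        (𝓝 (Pool.Agent.Helper92K9.MP.LL α s t))) :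
    (∀ (r : ℕ) (s t : Fin r → ℝ), (∀ i, 0 < s i) → (∀ i, s i < t i) →
      Tendsto (fun n : ℕ => (Set.ncard {q : Fin (r + 1) → ℕ | Function.Injective q ∧
          (∀ i, IsExp α a 0 (Fin.elim0 : Fin 0 → ℝ) (q i)) ∧ q 0 ≤ n ∧
          ∀ i : Fin r, s i * q 0 < q i.succ ∧ (q i.succ : ℝ) ≤ t i * q 0} : ℝ) / Real.log n) atTop
        (𝓝 (kappa α ^ (r + 1) * ∏ i, Real.log (t i / s i)))) ∧
    (∀ t : ℝ, 1 < t → ∀ j : ℕ, Tendsto (fun n : ℕ =>
      (Set.ncard {p : ℕ | IsExp α a 0 (Fin.elim0 : Fin 0 → ℝ) p ∧ p ≤ n ∧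
          Set.ncard {q : ℕ | IsExp α a 0 (Fin.elim0 : Fin 0 → ℝ) q ∧ p < q ∧ (q : ℝ) ≤ t * p} = j} : ℝ) /
        (Set.ncard {p : ℕ | IsExp α a 0 (Fin.elim0 : Fin 0 → ℝ) p ∧ p ≤ n} : ℝ)) atTop
      (𝓝 (Real.exp (-(kappa α * Real.log t)) * (kappa α * Real.log t) ^ j / (j.factorial : ℝ)))) := by
  classical
  refine ⟨?_, ?_⟩
  · intro r s t hs hst
    have h := hw r s t hs hst
    simp only [corr_set α a 0 (Fin.elim0 : Fin 0 → ℝ) hs hst]
    have e1 : Pool.Agent.Helper92K9.MP.LL α s t = kappa α ^ (r + 1) * ∏ i, Real.log (t i / s i) := by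
      unfold Pool.Agent.Helper92K9.MP.LL
      rw [Finset.prod_mul_distrib, Finset.prod_const, Finset.card_univ, Fintype.card_fin, pow_succ]
      unfold kappa Pool.Agent.Helper92K9.MP.kap
      ring
    rw [e1] at h
    exact h
  · intro t ht j
    have h := Pool.Agent.Helper92K9.MP.gap_exact hα hw ht j
    refine h.congr fun n => ?_
    have e1 : (Set.ncard {p : ℕ | IsExp α a 0 (Fin.elim0 : Fin 0 → ℝ) p ∧ p ≤ n ∧
        Set.ncard {q : ℕ | IsExp α a 0 (Fin.elim0 : Fin 0 → ℝ) q ∧ p < q ∧ (q : ℝ) ≤ t * p} = j} : ℝ) =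
        ∑ p ∈ Pr 1 n, Pool.Agent.Helper92K9.MP.gi α a 0 (Fin.elim0 : Fin 0 → ℝ) p *
          (if KK α a 0 (Fin.elim0 : Fin 0 → ℝ) 1 t p = j then (1 : ℝ) else 0) := by
      simp only [gap_set α a 0 (Fin.elim0 : Fin 0 → ℝ) ht]
      refine (num_set α a 0 (Fin.elim0 : Fin 0 → ℝ)
        (fun p => KK α a 0 (Fin.elim0 : Fin 0 → ℝ) 1 t p = j) n).trans (Finset.sum_congr rfl fun p _ => ?_)
      congr
    have e2 : (Set.ncard {p : ℕ | IsExp α a 0 (Fin.elim0 : Fin 0 → ℝ) p ∧ p ≤ n} : ℝ) =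
        ∑ p ∈ Pr 1 n, Pool.Agent.Helper92K9.MP.gi α a 0 (Fin.elim0 : Fin 0 → ℝ) p := by
      have := num_set α a 0 (Fin.elim0 : Fin 0 → ℝ) (fun _ => True) n
      simpa using this
    rw [e1, e2]

/-- At `α = 2`, `G = 1`, `c = 0` the exponents are the Mersenne exponents; the perturbations of the
Mersenne numbers of relative size `p ^ (k - 1 - M)`, `k ≤ M`, and the amplitude polynomials with positive
leading coefficient are admissible; for almost every admissible `c` all the correlations of the exponents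
up to the order `k / 2` are those of a Poisson process, and the statistics of the gaps are those of a
Poisson process up to the error in the Bonferroni inequalities.  For independent uniform coefficients
`X_0, X_1, ...` and the amplitude `G p + ω p (X_0 + X_1 / p + X_2 / p ^ 2 + ...)` all the correlations and
the statistics of the gaps are almost surely exactly those of a Poisson process. -/
theorem result :
    (∀ (k : ℕ) (ω : ℕ → ℝ) (p : ℕ), IsExp 2 (fun _ => 1) ω (0 : Fin k → ℝ) p ↔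
      p.Prime ∧ (2 ^ p - 1).Prime) ∧
    (∀ (k M : ℕ) (c : Fin k → ℝ), k ≤ M → Poly (fun _ => 1) (fun p => ((p : ℝ) ^ M)⁻¹) ∧
      Adm (fun _ => 1) (fun p => ((p : ℝ) ^ M)⁻¹) c) ∧
    (∀ (k : ℕ) (c : Fin (k + 1) → ℝ), 0 < c (Fin.last k) → Poly (fun _ => 0) (fun _ => 1) ∧
      Adm (fun _ => 0) (fun _ => 1) c) ∧
    (∀ (k : ℕ) (α : ℝ) (G ω : ℕ → ℝ), 1 < α → Poly G ω → ∀ᵐ c : Fin k → ℝ, Adm G ω c →
      (∀ r : ℕ, 2 * (r + 1) ≤ k → ∀ s t : Fin r → ℝ, (∀ i, 0 < s i) → (∀ i, s i < t i) →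
        Tendsto (fun n : ℕ => (Set.ncard {q : Fin (r + 1) → ℕ | Function.Injective q ∧
            (∀ i, IsExp α G ω c (q i)) ∧ q 0 ≤ n ∧
            ∀ i : Fin r, s i * q 0 < q i.succ ∧ (q i.succ : ℝ) ≤ t i * q 0} : ℝ) / Real.log n) atTop
          (𝓝 (kappa α ^ (r + 1) * ∏ i, Real.log (t i / s i)))) ∧
      (∀ j m : ℕ, 2 * (j + m + 1) ≤ k → ∀ t : ℝ, 1 < t → ∀ ε > 0, ∀ᶠ n : ℕ in atTop,
        |(Set.ncard {p : ℕ | IsExp α G ω c p ∧ p ≤ n ∧
              Set.ncard {q : ℕ | IsExp α G ω c q ∧ p < q ∧ (q : ℝ) ≤ t * p} = j} : ℝ) /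
            (Set.ncard {p : ℕ | IsExp α G ω c p ∧ p ≤ n} : ℝ) -
          Real.exp (-(kappa α * Real.log t)) * (kappa α * Real.log t) ^ j / (j.factorial : ℝ)| ≤
          2 * (kappa α * Real.log t) ^ (j + m) / ((j.factorial : ℝ) * (m.factorial : ℝ)) + ε)) ∧
    (∀ (ω : ℕ → ℝ) (p : ℕ), IsExpS 2 (fun _ => 1) ω (fun _ => 0) p ↔ p.Prime ∧ (2 ^ p - 1).Prime) ∧
    (∀ M : ℕ, PolyS (fun _ => 1) (fun p => ((p : ℝ) ^ M)⁻¹) ∧
      ∀ x : ℕ → ℝ, (∀ j, x j ∈ Set.Icc (0 : ℝ) 1) → ∀ p : ℕ, 2 ≤ p →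
        1 ≤ ampS (fun _ => 1) (fun p => ((p : ℝ) ^ M)⁻¹) x p ∧
        ampS (fun _ => 1) (fun p => ((p : ℝ) ^ M)⁻¹) x p ≤ 1 + 2 * ((p : ℝ) ^ M)⁻¹) ∧
    (∀ (Ω : Type) [MeasurableSpace Ω] (P : Measure Ω) [IsProbabilityMeasure P] (X : ℕ → Ω → ℝ),
      (∀ j, Measurable (X j)) → ProbabilityTheory.iIndepFun X P →
      (∀ j, P.map (X j) = volume.restrict (Set.Icc 0 1)) →
      ∀ (α : ℝ) (G ω : ℕ → ℝ), 1 < α → PolyS G ω → ∀ᵐ w ∂P,
      (∀ (r : ℕ) (s t : Fin r → ℝ), (∀ i, 0 < s i) → (∀ i, s i < t i) →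
        Tendsto (fun n : ℕ => (Set.ncard {q : Fin (r + 1) → ℕ | Function.Injective q ∧
            (∀ i, IsExpS α G ω (fun j => X j w) (q i)) ∧ q 0 ≤ n ∧
            ∀ i : Fin r, s i * q 0 < q i.succ ∧ (q i.succ : ℝ) ≤ t i * q 0} : ℝ) / Real.log n) atTop
          (𝓝 (kappa α ^ (r + 1) * ∏ i, Real.log (t i / s i)))) ∧
      (∀ t : ℝ, 1 < t → ∀ j : ℕ, Tendsto (fun n : ℕ =>
        (Set.ncard {p : ℕ | IsExpS α G ω (fun j => X j w) p ∧ p ≤ n ∧
            Set.ncard {q : ℕ | IsExpS α G ω (fun j => X j w) q ∧ p < q ∧ (q : ℝ) ≤ t * p} = j} : ℝ) /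
          (Set.ncard {p : ℕ | IsExpS α G ω (fun j => X j w) p ∧ p ≤ n} : ℝ)) atTop
        (𝓝 (Real.exp (-(kappa α * Real.log t)) * (kappa α * Real.log t) ^ j / (j.factorial : ℝ))))) := by
  refine ⟨fun k ω p => ?_, fun k M c h => ⟨⟨M, ?_⟩, adm_near k M c h⟩,
    fun k c h => ⟨⟨0, Eventually.of_forall fun p => by simp⟩, adm_poly k c h⟩, fun k α G ω hα hP => ?_,
    fun ω p => ?_, fun M => ⟨⟨M, ?_⟩, fun x hx p hp => ?_⟩, ?_⟩
  rotate_left 3
  · unfold IsExpS
    refine and_congr_right fun hp => ?_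
    rw [ampS_zero]
    have := mersenne (k := 0) ω hp
    unfold amp at this
    simp only [Finset.univ_eq_empty, Finset.sum_empty, mul_zero, add_zero] at this
    rw [this]
  · filter_upwards [eventually_ge_atTop 1] with p hp
    have hp1 : (1 : ℝ) ≤ p := by exact_mod_cast hp
    have h1 : (1 : ℝ) ≤ (p : ℝ) ^ M := one_le_pow₀ hp1
    exact ⟨zero_le_one, h1, le_rfl, (inv_le_one_of_one_le₀ h1).trans h1⟩
  · have hp1 : (0 : ℝ) < p := by exact_mod_cast (by omega : 0 < p)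
    have h1 : 0 ≤ ∑' j : ℕ, x j / (p : ℝ) ^ j := tsum_nonneg fun j => div_nonneg (hx j).1 (by positivity)
    have h2 : ∑' j : ℕ, x j / (p : ℝ) ^ j ≤ 2 := by
      have := Pool.Agent.Helper92K9.MP.tail_le 0 hx hp
      simpa using this
    have h3 : 0 ≤ ((p : ℝ) ^ M)⁻¹ := by positivity
    unfold ampS
    constructor
    · have := mul_nonneg h3 h1
      linarith
    · have := mul_le_mul_of_nonneg_left h2 h3
      linarith
  · intro Ω _ P _ X hX hi hu α G ω hα hP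
    filter_upwards [Pool.Agent.Helper92K9.MP.series hX hi hu hα hP] with w hw
    simp only [IsExpS_iff]
    exact series_law hα hw
  · unfold IsExp
    exact and_congr_right fun hp => by rw [mersenne ω hp]
  · filter_upwards [eventually_ge_atTop 1] with p hp
    have hp1 : (1 : ℝ) ≤ p := by exact_mod_cast hp
    have h1 : (1 : ℝ) ≤ (p : ℝ) ^ M := one_le_pow₀ hp1
    exact ⟨by rw [abs_one]; exact h1, le_rfl, (inv_le_one_of_one_le₀ h1).trans h1⟩
  rcases Nat.eq_zero_or_pos k with hk | hk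
  · subst hk
    exact Eventually.of_forall fun c _ => ⟨fun r hr => absurd hr (by omega), fun j m hr => absurd hr (by omega)⟩
  obtain ⟨D1, hD1⟩ := hP
  have hmain : ∀ᵐ c : Fin k → ℝ, Adm G ω c → Pool.Agent.Helper92K9.MP.Pois α G ω c :=
    Pool.Agent.Helper92K9.MP.region hk hα (hD1.mono fun p h => h.1)
      (hD1.mono fun p h => h.2) fun D' u v hF => Pool.Agent.Helper92K9.MP.ae_pois hF
  filter_upwards [hmain] with c hc0 hc1
  have hc := hc0 hc1
  refine ⟨?_, ?_⟩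
  · intro r hr s t hs hst
    have h := hc r hr s t hs hst
    simp only [corr_set α G ω c hs hst]
    have e1 : Pool.Agent.Helper92K9.MP.LL α s t = kappa α ^ (r + 1) * ∏ i, Real.log (t i / s i) := by
      unfold Pool.Agent.Helper92K9.MP.LL
      rw [Finset.prod_mul_distrib, Finset.prod_const, Finset.card_univ, Fintype.card_fin, pow_succ]
      unfold kappa Pool.Agent.Helper92K9.MP.kap
      ring
    rw [e1] at h
    exact h
  · intro j m hjm t ht ε hε
    filter_upwards [Pool.Agent.Helper92K9.MP.gap hα ht (hc.good ht (N := j + m + 1) hjm) ε hε] with n hn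
    have e1 : (Set.ncard {p : ℕ | IsExp α G ω c p ∧ p ≤ n ∧
        Set.ncard {q : ℕ | IsExp α G ω c q ∧ p < q ∧ (q : ℝ) ≤ t * p} = j} : ℝ) =
        ∑ p ∈ Pr 1 n, Pool.Agent.Helper92K9.MP.gi α G ω c p * (if KK α G ω c 1 t p = j then (1 : ℝ) else 0) := by
      simp only [gap_set α G ω c ht]
      refine (num_set α G ω c (fun p => KK α G ω c 1 t p = j) n).trans (Finset.sum_congr rfl fun p _ => ?_)
      congr
    have e2 : (Set.ncard {p : ℕ | IsExp α G ω c p ∧ p ≤ n} : ℝ) =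
        ∑ p ∈ Pr 1 n, Pool.Agent.Helper92K9.MP.gi α G ω c p := by
      have := num_set α G ω c (fun _ => True) n
      simpa using this
    rw [e1, e2]
    refine hn.trans (le_of_eq ?_)
    unfold Pool.Agent.Helper92K9.MP.cf kappa Pool.Agent.Helper92K9.MP.kap
    ring

end Pool.Agent.Results.MP_9b2bac_nt.PoissonCorrelations
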