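import Mathlib
import Pool.Agent.Helper18K9.PL.Mom

set_option autoImplicit false

/-!
# Poisson law for the exponents under random analytic perturbations of any order

For a sequence `g` with `g p / p → a > 0` (for the Mersenne numbers `g p = p log 2`), an order `m` and
real coefficients `c 0, c 1, …` let `W g m c p` be the `p`-rough part (the product, with multiplicity,
of the prime factors larger than `p`) of the largest integer below
`exp (g p + c 0 / p ^ m + c 1 / p ^ (m + 1) + …)`.  For `g p = p log 2` this is the largest integer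
below `2 ^ p * exp (c 0 / p ^ m + c 1 / p ^ (m + 1) + …) = 2 ^ p (1 + O (p ^ (-m)))`, and for `c = 0` the
number `W` is the Mersenne number `2 ^ p - 1`.  The exponents are the primes `p` with `W g m c p` prime.

Let the `c j` be independent and uniform on `[-r j, r j]`, with `r j > 0` arbitrary but summable, and `m`
any order.  We prove

* (correlations of all orders) for every `k` the probability that the `W g m c q`, `q ∈ S`, are all
  prime is `∏ (e ^ γ / a) (log q / q)` times `1 + o (1)`, uniformly for all sets `S` of `k` integers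
  `q → ∞`, however close to or far from each other they are;
* (Poisson law) for disjoint windows `(α i, β i]` the numbers of exponents in `(α i z, β i z]` converge
  jointly in law, as `z → ∞`, to independent Poisson variables of means
  `(e ^ γ / a) log (β i / α i)`.  In particular the probability that there is no exponent in `(z, b z]`
  tends to `b ^ (- e ^ γ / a)`.

Proof.  For given `q ∈ S` the interpolation polynomial with prescribed values at the points `1 / q`
gives a shift of `c 0, …, c (k - 1)` that moves the `k` exponents `g q + …` by prescribed amounts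
`w q ∈ (0, q ^ (-A)]`; the shift is small because the points `1 / q` are at distance at least
`1 / (2 q ^ 2)` from each other.  So the probability lies between means of products of window means over
slightly smaller and larger boxes, and the window means for windows as short as `q ^ (-A)` follow from
the prime number theorem with error term and Mertens' theorem.  Then the factorial moments converge to
those of the Poisson law, and the Bonferroni inequalities give the convergence of the joint law.
-/

namespace Pool.Agent.Results.MP_9b2bac_nt.PoissonLaw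

open Filter Topology MeasureTheory ProbabilityTheory

/-- The product, with multiplicity, of the prime factors of `n` that are larger than `p`. -/
def roughPart (p n : ℕ) : ℕ := (n.primeFactorsList.filter (fun r => p < r)).prod

/-- The `p`-rough part of the largest integer below `exp (g p + ∑ j, c j / p ^ (m + j))`. -/
noncomputable def W (g : ℕ → ℝ) (m : ℕ) (c : ℕ → ℝ) (p : ℕ) : ℕ :=
  roughPart p (⌈Real.exp (g p + ∑' j, c j / (p : ℝ) ^ (m + j))⌉₊ - 1)

/-- The number of exponents in the interval `(u, v]`: the primes `p` in this interval for which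
`W g m c p` is prime. -/
noncomputable def E (g : ℕ → ℝ) (m : ℕ) (c : ℕ → ℝ) (u v : ℝ) : ℕ :=
  ((Finset.Ioc ⌊u⌋₊ ⌊v⌋₊).filter (fun p => p.Prime ∧ (W g m c p).Prime)).card

lemma W_mersenne (m : ℕ) {p : ℕ} (hp : p.Prime) :
    W (fun q => q * Real.log 2) m (fun _ => 0) p = 2 ^ p - 1 := by
  have e1 : Real.exp (p * Real.log 2 + ∑' j, (0 : ℝ) / (p : ℝ) ^ (m + j)) = ((2 ^ p : ℕ) : ℝ) := by
    simp only [zero_div, tsum_zero]
    rw [add_zero, mul_comm, Real.exp_mul, Real.exp_log two_pos, Real.rpow_natCast]
    push_cast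
    rfl
  unfold W
  rw [e1, Nat.ceil_natCast]
  unfold roughPart
  rw [List.filter_eq_self.2, Nat.prod_primeFactorsList]
  · have h := hp.two_le
    have : 2 ^ 2 ≤ 2 ^ p := Nat.pow_le_pow_right (by norm_num) h
    omega
  · intro r hr
    obtain ⟨hr1, hr2⟩ := Nat.mem_primeFactorsList'.1 hr
    -- the order of `2` modulo `r` is `p`
    have hr2' := hr2.1
    have : Fact r.Prime := ⟨hr1⟩
    have : Fact p.Prime := ⟨hp⟩
    have h1 : (2 : ZMod r) ^ p = 1 := by
      have h3 : ((2 ^ p - 1 : ℕ) : ZMod r) = 0 := (ZMod.natCast_eq_zero_iff _ _).2 hr2'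
      rw [Nat.cast_sub Nat.one_le_two_pow] at h3
      push_cast at h3
      exact sub_eq_zero.1 h3
    have h2 : (2 : ZMod r) ≠ 1 := by
      intro h
      have : (1 : ZMod r) = 0 := by linear_combination h
      exact one_ne_zero this
    have h4 : orderOf (2 : ZMod r) = p := orderOf_eq_prime h1 h2
    have h5 : (2 : ZMod r) ≠ 0 := by
      intro h
      rw [h, zero_pow hp.ne_zero] at h1
      exact zero_ne_one h1
    have h6 : orderOf (2 : ZMod r) ∣ r - 1 := orderOf_dvd_of_pow_eq_one (ZMod.pow_card_sub_one_eq_one h5)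
    rw [h4] at h6
    have h7 : p ≤ r - 1 := Nat.le_of_dvd (by have := hr1.two_le; omega) h6
    have := hr1.two_le
    simp only [decide_eq_true_eq]
    omega

lemma W_eq {Ω : Type} (g : ℕ → ℝ) (m : ℕ) (c : ℕ → Ω → ℝ) (ω : Ω) (p : ℕ) :
    W g m (fun j => c j ω) p =
      Pool.Agent.H305R2.roughPart p (Pool.Agent.H305R2.NN (Pool.Agent.Helper18K9.PL.Fr g m c ω p)) := by
  unfold W Pool.Agent.H305R2.NN Pool.Agent.Helper18K9.PL.Fr
  simp only [div_eq_mul_inv]
  rfl

lemma E_eq {Ω : Type} (g : ℕ → ℝ) (m : ℕ) (c : ℕ → Ω → ℝ) (ω : Ω) (α β z : ℝ) :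
    E g m (fun j => c j ω) (α * z) (β * z) =
      Pool.Agent.Helper18K9.PL.Cn g m c (Pool.Agent.Helper18K9.PL.Pw α β z) ω := by
  unfold E Pool.Agent.Helper18K9.PL.Cn Pool.Agent.Helper18K9.PL.Pw
  simp only [Finset.filter_filter, W_eq]

/-- At `g p = p log 2`, `c = 0` the numbers are the Mersenne numbers; for independent uniform
coefficients, correlations of all orders and joint Poisson law. -/
theorem result :
    (∀ m p : ℕ, p.Prime → W (fun q => q * Real.log 2) m (fun _ => 0) p = 2 ^ p - 1) ∧
    ∀ (Ω : Type) [MeasurableSpace Ω] (P : Measure Ω) [IsProbabilityMeasure P]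
      (r : ℕ → ℝ) (c : ℕ → Ω → ℝ), (∀ j, 0 < r j) → Summable r → (∀ j, Measurable (c j)) →
      iIndepFun c P → (∀ j, pdf.IsUniform (c j) (Set.Icc (-(r j)) (r j)) P volume) →
      ∀ (g : ℕ → ℝ) (a : ℝ), 0 < a → Tendsto (fun p : ℕ => g p / p) atTop (𝓝 a) → ∀ m : ℕ,
      (∀ k : ℕ, ∀ ε : ℝ, 0 < ε → ∃ Z : ℕ, ∀ S : Finset ℕ, S.card = k → (∀ q ∈ S, Z ≤ q) →
        |P.real {ω | ∀ q ∈ S, (W g m (fun j => c j ω) q).Prime} -
            ∏ q ∈ S, (Real.exp Real.eulerMascheroniConstant / a * (Real.log q / q))| ≤
          ε * ∏ q ∈ S, (Real.exp Real.eulerMascheroniConstant / a * (Real.log q / q))) ∧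
      (∀ (s : ℕ) (α β : Fin s → ℝ), (∀ i, 0 < α i) → (∀ i, α i < β i) →
        (∀ i j, i ≠ j → Disjoint (Set.Ioc (α i) (β i)) (Set.Ioc (α j) (β j))) → ∀ n : Fin s → ℕ,
        Tendsto (fun z : ℝ => P.real {ω | ∀ i, E g m (fun j => c j ω) (α i * z) (β i * z) = n i}) atTop
          (𝓝 (∏ i, (Real.exp (-(Real.exp Real.eulerMascheroniConstant / a * Real.log (β i / α i))) *
            (Real.exp Real.eulerMascheroniConstant / a * Real.log (β i / α i)) ^ (n i) /
              (n i).factorial)))) := by
  refine ⟨fun m p hp => W_mersenne m hp, ?_⟩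
  intro Ω _ P _ r c hr0 hr hc hind hun g a ha hg m
  have h : Pool.Agent.Helper18K9.PL.Coeffs P r c := ⟨hr0, hr, hc, hind, hun⟩
  refine ⟨fun k ε hε => ?_, fun s α β hα hαβ hd n => ?_⟩
  · obtain ⟨Z, hZ⟩ := Pool.Agent.Helper18K9.PL.corr h ha hg m k hε
    refine ⟨Z, fun S hS hSZ => ?_⟩
    have h1 := hZ S hS hSZ
    have h2 : ∫ ω, (∏ q ∈ S, Pool.Agent.H305R2.ff q (Pool.Agent.Helper18K9.PL.Fr g m c ω q)) ∂P =
        P.real {ω | ∀ q ∈ S, (W g m (fun j => c j ω) q).Prime} := by
      have hms : MeasurableSet {ω | ∀ q ∈ S, (W g m (fun j => c j ω) q).Prime} := by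
        have e : {ω | ∀ q ∈ S, (W g m (fun j => c j ω) q).Prime} =
            ⋂ q ∈ S, (fun ω => Pool.Agent.H305R2.NN (Pool.Agent.Helper18K9.PL.Fr g m c ω q)) ⁻¹'
              {n : ℕ | (Pool.Agent.H305R2.roughPart q n).Prime} := by
          ext ω
          simp only [Set.mem_iInter, Set.mem_preimage, Set.mem_ofPred_eq, W_eq]
        rw [e]
        refine MeasurableSet.biInter S.countable_toSet fun q _ => ?_
        exact (Pool.Agent.H305R2.measurable_NN.comp (h.measurable_Fr g m q)) MeasurableSet.of_discrete
      rw [← integral_indicator_one hms]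
      refine integral_congr_ae (Eventually.of_forall fun ω => ?_)
      unfold Pool.Agent.H305R2.ff
      simp only [Set.indicator_apply, Set.mem_ofPred_eq, Pi.one_apply]
      rw [Finset.prod_ite_zero]
      simp [W_eq]
    rw [h2] at h1
    exact h1
  · have h1 := Pool.Agent.Helper18K9.PL.poisson h ha hg m α β hα hαβ hd n
    refine h1.congr fun z => ?_
    simp only [E_eq]

end Pool.Agent.Results.MP_9b2bac_nt.PoissonLaw
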