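import Mathlib
import Pool.Agent.Helper46K9.CL.U

set_option autoImplicit false

/-!
# The central limit theorem for the number of exponents

For real `x > 0`, `y` and a prime `p` let `W x y p` be the `p`-rough part (the product, with
multiplicity, of the prime factors larger than `p`) of the largest integer below
`exp (p x + y) = β α ^ p`, where `α = exp x` is the base and `β = exp y` the amplitude.  At
`(x, y) = (log 2, 0)` it is the Mersenne number `2 ^ p - 1`.  The exponents are the primes `p` with
`W x y p` prime; `M x y n` is their number up to `n`.  For almost every `(x, y)` it is asymptotic to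
`κ x * log n` with `κ x = e ^ γ / x` (starting library), which for `x = log 2` is the conjectured
number of Mersenne exponents.

We prove that the fluctuation around `κ x * log n` is Gaussian of variance `κ x * log n`: for every
absolutely continuous law of `(x, y)` on the half plane `x > 0`,
`(M x y n - κ x * log n) / sqrt (κ x * log n)` converges in distribution to the standard normal law.
Since the law is arbitrary, the limit is also independent of `(x, y)` (mixing convergence).

Proof.  The characteristic function over a box of `(x, y)` is telescoped over the primes `q`, the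
levels `p x + y` of the primes `p < q` being split into far ones, `p ≤ c q / log q`, and near ones.
The far levels decorrelate from the level `q` (up to `O (log q / q ^ 2)`) on every vertical line, and
from the product of the levels `q` and `p`, `p` near, on the lines on which the level `p` is constant;
the third moments of the near levels are bounded by an upper bound of the right order for the
correlation of three levels, obtained on the lines on which the middle level is constant from the
bound for short intervals of the starting library.
-/

namespace Pool.Agent.Results.MP_9b2bac_nt.TwoParameterCentralLimit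

open Filter Topology MeasureTheory ProbabilityTheory

/-- The product, with multiplicity, of the prime factors of `m` that are larger than `p`. -/
def roughPart (p m : ℕ) : ℕ := (m.primeFactorsList.filter (fun r => p < r)).prod

/-- The `p`-rough part of the largest integer below `exp (p x + y)`. -/
noncomputable def W (x y : ℝ) (p : ℕ) : ℕ := roughPart p (⌈Real.exp (p * x + y)⌉₊ - 1)

/-- The number of the primes `p ≤ n` for which `W x y p` is prime. -/
noncomputable def M (x y : ℝ) (n : ℕ) : ℕ :=
  ((Finset.Icc 1 n).filter (fun p => p.Prime ∧ (W x y p).Prime)).card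

/-- The constant `e ^ γ / x`. -/
noncomputable def κ (x : ℝ) : ℝ := Real.exp Real.eulerMascheroniConstant / x

lemma W_mersenne {p : ℕ} (hp : p.Prime) : W (Real.log 2) 0 p = 2 ^ p - 1 := by
  have e1 : Real.exp (p * Real.log 2 + 0) = ((2 ^ p : ℕ) : ℝ) := by
    rw [add_zero, mul_comm, Real.exp_mul, Real.exp_log two_pos, Real.rpow_natCast]
    push_cast
    rfl
  unfold W
  rw [e1, Nat.ceil_natCast]
  unfold roughPart
  rw [List.filter_eq_self.2, Nat.prod_primeFactorsList]
  · have h := hp.two_le
    have : 2 ^ 2 ≤ 2 ^ p := Nat.pow_le_pow_right (by norm_num) h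
    omega
  · intro r hr
    obtain ⟨hr1, hr2⟩ := Nat.mem_primeFactorsList'.1 hr
    -- the order of `2` modulo `r` is `p`
    have hr2' := hr2.1
    have : Fact r.Prime := ⟨hr1⟩
    have : Fact p.Prime := ⟨hp⟩
    have h1 : (2 : ZMod r) ^ p = 1 := by
      have h3 : ((2 ^ p - 1 : ℕ) : ZMod r) = 0 := (ZMod.natCast_eq_zero_iff _ _).2 hr2'
      rw [Nat.cast_sub Nat.one_le_two_pow] at h3
      push_cast at h3
      exact sub_eq_zero.1 h3
    have h2 : (2 : ZMod r) ≠ 1 := by
      intro h
      have : (1 : ZMod r) = 0 := by linear_combination h
      exact one_ne_zero this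
    have h4 : orderOf (2 : ZMod r) = p := orderOf_eq_prime h1 h2
    have h5 : (2 : ZMod r) ≠ 0 := by
      intro h
      rw [h, zero_pow hp.ne_zero] at h1
      exact zero_ne_one h1
    have h6 : orderOf (2 : ZMod r) ∣ r - 1 := orderOf_dvd_of_pow_eq_one (ZMod.pow_card_sub_one_eq_one h5)
    rw [h4] at h6
    have h7 : p ≤ r - 1 := Nat.le_of_dvd (by have := hr1.two_le; omega) h6
    have := hr1.two_le
    simp only [decide_eq_true_eq]
    omega

lemma M_eq (n : ℕ) (z : ℝ × ℝ) : (M z.1 z.2 n : ℝ) = Pool.Agent.Helper46K9.CL.Mc n z := by
  unfold M Pool.Agent.Helper46K9.CL.Mc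
  rw [← Finset.filter_filter, ← Finset.sum_boole]
  rfl

/-- At `(log 2, 0)` the numbers are the Mersenne numbers; for every absolutely continuous law of
`(x, y)` with `x > 0` the normalised number of exponents up to `n` converges in law to the standard
normal distribution. -/
theorem result :
    (∀ p : ℕ, p.Prime → W (Real.log 2) 0 p = 2 ^ p - 1) ∧
    (∀ μ : Measure (ℝ × ℝ), IsProbabilityMeasure μ → μ ≪ volume → μ {z | z.1 ≤ 0} = 0 → ∀ a : ℝ,
      Tendsto (fun n : ℕ => μ {z | ((M z.1 z.2 n : ℝ) - κ z.1 * Real.log n) /
        Real.sqrt (κ z.1 * Real.log n) ≤ a}) atTop (𝓝 (gaussianReal 0 1 (Set.Iic a)))) := by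
  refine ⟨fun p hp => W_mersenne hp, fun μ hμ h1 h2 a => ?_⟩
  have h := Pool.Agent.Helper46K9.CL.clt h1 h2 a
  refine h.congr fun n => ?_
  congr 1
  ext z
  simp only [M_eq]
  rfl

end Pool.Agent.Results.MP_9b2bac_nt.TwoParameterCentralLimit
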